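import Pool.Agent.H81.LR.Cfun

/-! M10a: a small spanning set inside `Hᶜ` which contains `K \ H`. -/

set_option linter.unusedSectionVars false

open Module Submodule H15 H81.WK H81.LR

namespace H15.LR

variable {ι : Type*} [Fintype ι] {E : Type*} [AddCommGroup E] [Module ℝ E]
  [FiniteDimensional ℝ E] {w : ι → E}

/-- `finrank sp X ≤ finrank sp (X \ H) + |X ∩ H|`. -/
theorem finrank_sp_le_diff (w : ι → E) (X H : Set ι) :
    finrank ℝ (sp w X) ≤ finrank ℝ (sp w (X \ H)) + (X ∩ H).ncard := by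
  have h1 : sp w X ≤ sp w (X \ H) ⊔ sp w (X ∩ H) := by
    rw [← sp_union]
    refine sp_mono fun i hi => ?_
    by_cases h : i ∈ H
    · exact Or.inr ⟨hi, h⟩
    · exact Or.inl ⟨hi, h⟩
  have h2 := Submodule.finrank_mono h1
  have h3 := Submodule.finrank_sup_add_finrank_inf_eq (sp w (X \ H)) (sp w (X ∩ H))
  have h4 := finrank_sp_le (v := w) (X := X ∩ H)
  omega

/-- a basis of `E` inside `ι \ H` which extends a basis of `sp (K \ H)`, together with `K \ H`. -/
theorem exists_C0 {K H : Set ι} {b : ℕ} (h0 : cc w H = 0)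
    (hb : K.ncard ≤ finrank ℝ (sp w K) + b) :
    ∃ C₀ : Set ι, K \ H ⊆ C₀ ∧ Disjoint C₀ H ∧ cc w C₀ᶜ = 0 ∧ C₀.ncard ≤ finrank ℝ E + b := by
  classical
  have hbase : (K \ H).ncard ≤ finrank ℝ (sp w (K \ H)) + b := by
    have h1 := finrank_sp_le_diff w K H
    have h2 : (K ∩ H).ncard + (K \ H).ncard = K.ncard :=
      Set.ncard_inter_add_ncard_sdiff_eq_ncard K H (Set.toFinite _)
    omega
  obtain ⟨C, ⟨hC1, hC2, hC3⟩, hmax⟩ := Set.exists_max_image
    {C : Set ι | K \ H ⊆ C ∧ Disjoint C H ∧ C.ncard ≤ finrank ℝ (sp w C) + b} Set.ncard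
    (Set.toFinite _) ⟨K \ H, subset_rfl, Set.disjoint_sdiff_left, hbase⟩
  have htop : sp w C = ⊤ := by
    by_contra hcon
    have h1 : ∃ e ∈ Hᶜ, w e ∉ sp w C := by
      by_contra h2
      push Not at h2
      exact hcon (top_le_iff.1 ((cc_eq_zero_iff.1 h0).ge.trans (sp_le.2 h2)))
    obtain ⟨e, he, he'⟩ := h1
    have heC : e ∉ C := fun h => he' (mem_sp h)
    have h2 := hmax (insert e C) ⟨hC1.trans (Set.subset_insert _ _), by
      rw [Set.disjoint_insert_left]
      exact ⟨he, hC2⟩, by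
      rw [finrank_sp_insert he', Set.ncard_insert_of_notMem heC]
      omega⟩
    rw [Set.ncard_insert_of_notMem heC] at h2
    omega
  refine ⟨C, hC1, hC2, ?_, ?_⟩
  · rw [cc_eq_zero_iff, compl_compl]
    exact htop
  · rw [htop, finrank_top] at hC3
    exact hC3

end H15.LR
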