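import Pool.Agent.H81.LR.GoodC
import Pool.Agent.H15.LR.ExistsC0

/-! M10a: the choice of `C` in case X. -/

set_option linter.unusedSectionVars false

open Module Submodule H15 H81.WK H81.LR

namespace H15.LR

variable {ι : Type*} [Fintype ι] {E : Type*} [AddCommGroup E] [Module ℝ E]
  [FiniteDimensional ℝ E] {w : ι → E}

/-- the arithmetic of `split` with `Q = M / (6 (j+1)) - 1`. -/
theorem exists_Q {j M : ℕ} (hM : 84 * (j + 1) ≤ M) :
    ∃ Q : ℕ, 1 ≤ Q ∧ 6 * (j + 1) * (Q + 1) ≤ M ∧ ∀ t, Q * t ≤ M → t ≤ 7 * (j + 1) := by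
  have hp : 0 < 6 * (j + 1) := by omega
  have h14 : 14 ≤ M / (6 * (j + 1)) := by
    rw [Nat.le_div_iff_mul_le hp]
    omega
  obtain ⟨Q, hQ⟩ : ∃ Q, M / (6 * (j + 1)) = Q + 1 := ⟨M / (6 * (j + 1)) - 1, by omega⟩
  have h1 : 6 * (j + 1) * (Q + 1) ≤ M := by
    rw [← hQ]
    exact Nat.mul_div_le M (6 * (j + 1))
  have h2 : M < 6 * (j + 1) * (Q + 2) := by
    have := Nat.lt_mul_div_succ M hp
    rw [hQ] at this
    exact this
  refine ⟨Q, by omega, h1, fun t ht => ?_⟩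
  by_contra hcon
  have h3 : Q * (7 * (j + 1)) ≤ Q * t := Nat.mul_le_mul_left Q (by omega)
  have h4 : 13 ≤ Q := by omega
  nlinarith

/-- case X: `exists_C0`, `coverG`, `split`. -/
theorem exists_goodC {j κ f s b γ : ℕ} (hT : TFam w j κ f s) {K H : Set ι} (hHK : H ⊆ K)
    (hH0 : cc w H = 0) (hHe : ∀ e, cc w (insert e H) = 0) (hH : 2 * H.ncard + 5 ≤ κ + f)
    (hb : K.ncard ≤ finrank ℝ (sp w K) + b)
    (hK : K.ncard + 84 * (j + 1) ≤ κ + j + 1) (hγ : 2 * κ < 65536 * (γ + 1))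
    (hα : j + 1 + b ≤ κ) :
    ∃ (C : Set ι) (a : ℕ), a ≤ b + γ + 58 * j + 8 ∧ GoodC w j κ a K H C := by
  have hdim := hT.fam.dim
  obtain ⟨C₀, hK0, hd0, hs0, hc0⟩ := H15.LR.exists_C0 (w := w) hH0 hb
  obtain ⟨C₁, t, hsub1, hd1, hcol1, ht1, hc1⟩ :=
    coverG hT.fam hT.hj hT.hs hd0 hH hs0 hHe
  have hspan1 : cc w C₁ᶜ = 0 := by
    have := cc_mono (w := w) (Set.compl_subset_compl.2 hsub1)
    omega
  have hrho : κ + j + 1 ≤ C₁.ncard := by
    have h1 := finrank_sp_le (v := w) (X := C₁)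
    have h2 := cc_eq_zero_iff.1 hspan1
    rw [compl_compl] at h2
    rw [h2, finrank_top] at h1
    omega
  have hKC : K ⊆ C₁ ∪ H := by
    intro i hi
    by_cases h : i ∈ H
    · exact Or.inr h
    · exact Or.inl (hsub1 (hK0 ⟨hi, h⟩))
  have hdiff : C₁.ncard ≤ (C₁ \ K).ncard + K.ncard := by
    have h1 := Set.ncard_le_ncard_sdiff_add_ncard C₁ K (Set.toFinite _)
    omega
  obtain ⟨Q, hQ, hM, hQt⟩ := exists_Q (j := j) (M := (C₁ \ K).ncard) (by omega)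
  obtain ⟨C₂, t', hsub2, hd2, hcol2, hser2, ht2, hc2⟩ :=
    split hT.fam hT.hj hT.hs hd1 hKC hH hcol1 hQ hM
  have ht' := hQt t' ht2
  have hcard : C₁.ncard ≤ C₂.ncard := Set.ncard_le_ncard hsub2 (Set.toFinite _)
  refine ⟨C₂, C₂.ncard - (κ + j + 1), by omega, ?_⟩
  refine ⟨?_, hd2, by omega, hcol2, ?_, hser2⟩
  · exact hK0.trans (hsub1.trans hsub2)
  · have := cc_mono (w := w) (Set.compl_subset_compl.2 hsub2)
    omega

end H15.LR
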